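import Pool.Agent.Q166.LazyB

/-!
# `MP_3359ff_co`: the minimum length of a `(2,n)`-shuffle is `2n - 3`
-/

namespace Pool.Agent.Results.MP_3359ff_co.TwoCounterShuffles

open scoped NNReal ENNReal
open Q166.LazyS

/-- A lazy transposition `(a,b,p)` of the positions `0, ..., n-1`. -/
structure Lazy (n : ℕ) where
  /-- first position -/
  a : Fin n
  /-- second position -/
  b : Fin n
  ne : a ≠ b
  /-- the probability of the transposition -/
  p : ℝ≥0
  hp : p ≤ 1

/-- A coin with `P(true) = p`, `P(false) = 1 - p`. -/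
noncomputable def coin (p : ℝ≥0) (hp : p ≤ 1) : PMF Bool :=
  PMF.ofFintype (fun c => if c then (p : ℝ≥0∞) else ((1 - p : ℝ≥0) : ℝ≥0∞)) (by
    rw [Fintype.sum_bool]
    simp only [if_true, Bool.false_eq_true, if_false]
    rw [← ENNReal.coe_add, add_tsub_cancel_of_le hp, ENNReal.coe_one])

/-- `run l x` is the law of the positions of `t` counters which start in the positions
`x 0, ..., x (t-1)`, after the independent lazy transpositions of the list `l` have been applied
in this order: `(a,b,p)` exchanges the contents of the positions `a` and `b` with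
probability `p`. -/
noncomputable def run {n t : ℕ} : List (Lazy n) → (Fin t → Fin n) → PMF (Fin t → Fin n)
  | [], x => PMF.pure x
  | s :: l, x => (coin s.p s.hp).bind fun c =>
      if c then run l (fun j => Equiv.swap s.a s.b (x j)) else run l x

/-- `l` is a `(t,n)`-shuffle: the `t` counters start in the first `t` positions (counter `j` in
position `j`), and after the lazy transpositions of `l` each of the `n (n-1) ... (n-t+1)` tuples of
distinct positions is equally likely. -/
def IsShuffle {t n : ℕ} (h : t ≤ n) (l : List (Lazy n)) : Prop :=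
  ∀ y : Fin t → Fin n, Function.Injective y →
    run l (Fin.castLE h) y = ((n.descFactorial t : ℕ) : ℝ≥0∞)⁻¹

/-- `U_t(n)`: the minimum length of a `(t,n)`-shuffle. -/
noncomputable def U (t n : ℕ) (h : t ≤ n) : ℕ :=
  sInf {k | ∃ l : List (Lazy n), l.length = k ∧ IsShuffle h l}

/-! ### proof -/

variable {n : ℕ}

/-- conversion -/
noncomputable def conv (s : Lazy n) : Fin n × Fin n × ℝ := (s.a, s.b, (s.p : ℝ))

theorem run_cons_toReal {t : ℕ} (s : Lazy n) (l : List (Lazy n)) (x y : Fin t → Fin n) :
    (run (s :: l) x y).toReal = (s.p : ℝ) * (run l (fun j => Equiv.swap s.a s.b (x j)) y).toReal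
      + (1 - (s.p : ℝ)) * (run l x y).toReal := by
  rw [run, PMF.bind_apply, tsum_fintype, Fintype.sum_bool]
  simp only [coin, PMF.ofFintype_apply, if_true, Bool.false_eq_true, if_false]
  rw [ENNReal.toReal_add, ENNReal.toReal_mul, ENNReal.toReal_mul]
  · simp only [ENNReal.coe_toReal]
    rw [NNReal.coe_sub s.hp, NNReal.coe_one]
  · exact ENNReal.mul_ne_top ENNReal.coe_ne_top (PMF.apply_ne_top _ _)
  · exact ENNReal.mul_ne_top ENNReal.coe_ne_top (PMF.apply_ne_top _ _)

/-- the law after `l` from the law `M` -/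
theorem evol_eq (l : List (Lazy n)) : ∀ (M : Matrix (Fin n) (Fin n) ℝ) (i j : Fin n),
    evol (l.map conv) M i j = ∑ u, ∑ v, M u v * (run l ![u, v] ![i, j]).toReal := by
  induction l with
  | nil =>
    intro M i j
    simp only [List.map_nil, evol, run, PMF.pure_apply]
    rw [Finset.sum_eq_single i, Finset.sum_eq_single j]
    · simp
    · intro v _ hv
      have : ¬ (![i, j] = ![i, v]) := by
        intro h; exact hv (by simpa using (congrFun h 1).symm)
      simp [this]
    · simp
    · intro u _ hu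
      apply Finset.sum_eq_zero
      intro v _
      have : ¬ (![i, j] = ![u, v]) := by
        intro h; exact hu (by simpa using (congrFun h 0).symm)
      simp [this]
    · simp
  | cons s l ih =>
    intro M i j
    rw [List.map_cons, evol, ih]
    have e1 : ∀ u v : Fin n, (fun k => Equiv.swap s.a s.b ((![u, v] : Fin 2 → Fin n) k))
        = ![Equiv.swap s.a s.b u, Equiv.swap s.a s.b v] := by
      intro u v; ext k; fin_cases k <;> rfl
    simp only [run_cons_toReal, e1, mul_add, Finset.sum_add_distrib]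
    have e2 : ∑ u, ∑ v, M u v * ((s.p : ℝ) * (run l ![Equiv.swap s.a s.b u, Equiv.swap s.a s.b v]
        ![i, j]).toReal) = ∑ u, ∑ v, (s.p : ℝ) * M (Equiv.swap s.a s.b u) (Equiv.swap s.a s.b v)
          * (run l ![u, v] ![i, j]).toReal := by
      rw [← Equiv.sum_comp (Equiv.swap s.a s.b)]
      refine Finset.sum_congr rfl fun u _ => ?_
      rw [← Equiv.sum_comp (Equiv.swap s.a s.b)]
      refine Finset.sum_congr rfl fun v _ => ?_
      simp only [Equiv.swap_apply_self]
      ring
    rw [e2, ← Finset.sum_add_distrib]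
    refine Finset.sum_congr rfl fun u _ => ?_
    rw [← Finset.sum_add_distrib]
    refine Finset.sum_congr rfl fun v _ => ?_
    simp only [stepM, conv]
    ring

theorem start_eq (h : 2 ≤ n) : (Fin.castLE h : Fin 2 → Fin n) = ![⟨0, by omega⟩, ⟨1, by omega⟩] := by
  ext k; fin_cases k <;> rfl

theorem evol_start (h : 2 ≤ n) (l : List (Lazy n)) (i j : Fin n) :
    evol (l.map conv) (Matrix.single ⟨0, by omega⟩ ⟨1, by omega⟩ 1) i j
      = (run l (Fin.castLE h : Fin 2 → Fin n) ![i, j]).toReal := by
  rw [evol_eq, start_eq, Finset.sum_eq_single ⟨0, by omega⟩, Finset.sum_eq_single ⟨1, by omega⟩]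
  · simp
  · intro v _ hv
    simp [Matrix.single_apply, Ne.symm hv]
  · simp
  · intro u _ hu
    apply Finset.sum_eq_zero
    intro v _
    simp [Matrix.single_apply, Ne.symm hu]
  · simp

theorem lower_bound (h : 2 ≤ n) (l : List (Lazy n)) (hl : IsShuffle h l) :
    2 * n - 3 ≤ l.length := by
  have hc : ((n.descFactorial 2 : ℕ) : ℝ)⁻¹ ≠ 0 := by
    have : 0 < n.descFactorial 2 := Nat.descFactorial_pos.2 h
    positivity
  have := lower h ⟨0, by omega⟩ ⟨1, by omega⟩ (l.map conv) (by
    intro s hs
    rw [List.mem_map] at hs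
    obtain ⟨t, _, rfl⟩ := hs
    exact t.ne) (by simp [Fin.ext_iff]) _ hc (by
    intro i j hij
    rw [evol_start h, hl]
    · rw [ENNReal.toReal_inv, ENNReal.toReal_natCast]
    · intro a b hab
      fin_cases a <;> fin_cases b <;> simp_all)
  rwa [List.length_map] at this

theorem exists_list (l : List (Fin n × Fin n × ℝ)) (h1 : ∀ s ∈ l, s.1 ≠ s.2.1)
    (h2 : ∀ s ∈ l, 0 ≤ s.2.2) (h3 : ∀ s ∈ l, s.2.2 ≤ 1) : ∃ l' : List (Lazy n), l'.map conv = l := by
  induction l with
  | nil => exact ⟨[], rfl⟩
  | cons s l ih =>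
    obtain ⟨l', hl'⟩ := ih (fun t ht => h1 t (List.mem_cons_of_mem _ ht))
      (fun t ht => h2 t (List.mem_cons_of_mem _ ht)) (fun t ht => h3 t (List.mem_cons_of_mem _ ht))
    have hs := h1 s List.mem_cons_self
    have hs2 := h2 s List.mem_cons_self
    have hs3 := h3 s List.mem_cons_self
    refine ⟨⟨s.1, s.2.1, hs, ⟨s.2.2, hs2⟩, by exact_mod_cast hs3⟩ :: l', ?_⟩
    rw [List.map_cons, hl']
    rfl

theorem upper_bound (h : 2 ≤ n) : ∃ l : List (Lazy n), l.length = 2 * n - 3 ∧ IsShuffle h l := by
  obtain ⟨m, rfl⟩ : ∃ m, n = m + 2 := ⟨n - 2, by omega⟩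
  have key : ∀ j ≤ m, ∀ s ∈ seq m j, s.1 ≠ s.2.1 ∧ 0 ≤ s.2.2 ∧ s.2.2 ≤ 1 := by
    intro j
    induction j with
    | zero =>
      intro _ s hs
      simp only [seq, List.mem_singleton] at hs
      subst hs
      refine ⟨pos_ne (by omega) (by omega) (by omega), by norm_num, by norm_num⟩
    | succ j ih =>
      intro hj s hs
      simp only [seq, List.mem_cons] at hs
      rcases hs with rfl | rfl | hs
      · refine ⟨pos_ne (by omega) (by omega) (by omega), by positivity, ?_⟩
        rw [div_le_one (by positivity)]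
        have : (0 : ℝ) ≤ j := Nat.cast_nonneg j
        linarith
      · refine ⟨pos_ne (by omega) (by omega) (by omega), by positivity, ?_⟩
        rw [div_le_one (by positivity)]
        have : (0 : ℝ) ≤ j := Nat.cast_nonneg j
        linarith
      · exact ih (by omega) s hs
  obtain ⟨l, hl⟩ := exists_list (seq m m) (fun s hs => (key m le_rfl s hs).1)
    (fun s hs => (key m le_rfl s hs).2.1) (fun s hs => (key m le_rfl s hs).2.2)
  refine ⟨l, ?_, ?_⟩
  · rw [← List.length_map (f := conv), hl, seq_length]; omega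
  · intro y hy
    have hy' : y = ![y 0, y 1] := by ext k; fin_cases k <;> rfl
    have h01 : y 0 ≠ y 1 := fun h => by simpa using hy h
    have e := evol_start h l (y 0) (y 1)
    rw [hl] at e
    have p0 : pos m 0 = ⟨0, by omega⟩ := Fin.ext (pos_val (by omega))
    have p1 : pos m 1 = ⟨1, by omega⟩ := Fin.ext (pos_val (by omega))
    have sb := seq_both m m le_rfl
    rw [p0, p1] at sb
    rw [sb, ← hy'] at e
    have e3 : both m (m + 2) (y 0) (y 1) = (((m + 2).descFactorial 2 : ℕ) : ℝ)⁻¹ := by
      simp only [both, Matrix.of_apply, (y 0).isLt, (y 1).isLt, true_and, ne_eq, h01,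
        not_false_eq_true, if_true, Nat.descFactorial_succ, Nat.descFactorial_zero, mul_one,
        Nat.sub_zero]
      push_cast
      rw [one_div]
      congr 1
      ring
    rw [e3] at e
    have hp : (((m + 2).descFactorial 2 : ℕ) : ℝ≥0∞) ≠ 0 := by
      have : 0 < (m + 2).descFactorial 2 := Nat.descFactorial_pos.2 h
      exact_mod_cast this.ne'
    rw [← ENNReal.toReal_eq_toReal_iff' (PMF.apply_ne_top _ _) (ENNReal.inv_ne_top.2 hp), ← e,
      ENNReal.toReal_inv, ENNReal.toReal_natCast]

/-- **Theorem.** For every `n ≥ 2` the minimum length of a `(2,n)`-shuffle is `2n - 3`. -/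
theorem result (n : ℕ) (h : 2 ≤ n) :
    U 2 n h = 2 * n - 3 ∧
    IsLeast {k | ∃ l : List (Lazy n), l.length = k ∧ IsShuffle h l} (2 * n - 3) := by
  have hl : IsLeast {k | ∃ l : List (Lazy n), l.length = k ∧ IsShuffle h l} (2 * n - 3) := by
    refine ⟨upper_bound h, ?_⟩
    rintro k ⟨l, rfl, hl⟩
    exact lower_bound h l hl
  exact ⟨hl.csInf_eq, hl⟩

end Pool.Agent.Results.MP_3359ff_co.TwoCounterShuffles
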